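import Pool.Agent.Helper97.SPN.Rows

/-!
# MP_005e41_ag: `G / G^σ` is rational for the classical groups and the spin groups

`k` is an algebraically closed field of characteristic `0` and `G` is the quotient of a finite
product of groups `SL_n(k)`, `Sp_n(k)`, `SO_n(k)` (`n ≥ 7`, `n ≠ 8`) and `Spin_m(k)` (`m ≥ 7`,
`m ≠ 8`) by any subgroup of its centre (the quotient map is `π`).  The automorphism `σ` is any
automorphism of finite order `M` of the algebraic group `G`: a group automorphism such that `f ∘ σ`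
is regular for every regular function `f`.  If `4` divides `M`, the components in the spin groups of
the elements of the kernel of `π` are assumed to be `1` or `-1`.
-/

set_option autoImplicit false

namespace Pool.Agent.Results.MP_005e41_ag.SpinGroups

open Pool.Agent.Helper14.RG Pool.Agent.Helper97.CG Matrix

/-- The matrix `J` defines a classical group `{x ∈ SL_n(k) : xᵀ J x = J}`: `SL_n(k)` for `J = 0`,
`Sp_n(k)` for a nondegenerate alternating form, `SO_n(k)`, `n ≥ 7` and `n ≠ 8`, for a nondegenerate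
symmetric form. -/
def IsClassical {k : Type*} [Field k] {n : ℕ} (J : Matrix (Fin n) (Fin n) k) : Prop :=
  J = 0 ∨ (Jᵀ = -J ∧ J.det ≠ 0) ∨ (Jᵀ = J ∧ J.det ≠ 0 ∧ 7 ≤ n ∧ n ≠ 8)

/-- The classical group `{x ∈ SL_n(k) : xᵀ J x = J}`. -/
abbrev Cl {k : Type*} [Field k] {n : ℕ} (J : Matrix (Fin n) (Fin n) k) : Type _ := IsoG J

/-- The matrix of an element. -/
abbrev mat {k : Type*} [Field k] {n : ℕ} {J : Matrix (Fin n) (Fin n) k} (g : Cl J) :
    Matrix (Fin n) (Fin n) k := ((g : Matrix.SpecialLinearGroup (Fin n) k) : Matrix _ _ k)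

/-- The spin group of a quadratic form (Mathlib's spin group, a group of invertible elements of the
Clifford algebra). -/
abbrev SpinOf {k V : Type*} [Field k] [AddCommGroup V] [Module k V] (Q : QuadraticForm k V) :
    Type _ := spinGroup Q

/-- The element of a spin group is `1` or `-1`. -/
def IsSign {k V : Type*} [Field k] [AddCommGroup V] [Module k V] {Q : QuadraticForm k V}
    (h : SpinOf Q) : Prop := (h : CliffordAlgebra Q) = 1 ∨ (h : CliffordAlgebra Q) = -1

/-- The functions on a spin group which are restrictions of linear functionals of the Clifford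
algebra. -/
def linFun {k V : Type*} [Field k] [AddCommGroup V] [Module k V] (Q : QuadraticForm k V) :
    Set (SpinOf Q → k) := {f | ∃ φ : CliffordAlgebra Q →ₗ[k] k, ∀ h, f h = φ h}

/-- The quadratic form `∑ xᵢ²` on `k^m`. -/
abbrev Qf (m : ℕ) (k : Type*) [Field k] : QuadraticForm k (Fin m → k) :=
  QuadraticMap.weightedSumSquares k (fun _ : Fin m => (1 : k))

/-- The covering group `∏ Cl (J i) × ∏ Spin_{m j}(k)`. -/
def Cov {k : Type*} [Field k] {ι κ : Type*} {n : ι → ℕ} (J : ∀ i, Matrix (Fin (n i)) (Fin (n i)) k)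
    (m : κ → ℕ) : Type _ := (∀ i, Cl (J i)) × (∀ j, SpinOf (Qf (m j) k))

instance {k : Type*} [Field k] {ι κ : Type*} {n : ι → ℕ} (J : ∀ i, Matrix (Fin (n i)) (Fin (n i)) k)
    (m : κ → ℕ) : Group (Cov J m) :=
  Prod.instGroup (G := ∀ i, Cl (J i)) (H := ∀ j, SpinOf (Qf (m j) k))

/-- The regular functions on the quotient group `G` of `Cov J m = ∏ Cl (J i) × ∏ Spin_{m j}(k)`, with
quotient map `π`: the functions whose pullback is a polynomial in the matrix entries of the
components in the groups `Cl (J i)` and the values of linear functionals of the Clifford algebras on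
the components in the spin groups. -/
def Reg {k : Type*} [Field k] {ι κ : Type*} {n : ι → ℕ}
    {J : ∀ i, Matrix (Fin (n i)) (Fin (n i)) k} {m : κ → ℕ} {G : Type*} (π : Cov J m → G) :
    Set (G → k) :=
  {f | f ∘ π ∈ Algebra.adjoin k {e : Cov J m → k | (∃ i a b, ∀ g, e g = mat (g.1 i) a b) ∨
    ∃ j, ∃ φ ∈ linFun (Qf (m j) k), ∀ g, e g = φ (g.2 j)}}

/-- Let `G` be the quotient of the finite product of the classical groups `Cl (J i)` and the spin
groups `Spin_{m j}(k)` by a subgroup of the centre, with quotient map `π`, and let `σ` be an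
automorphism of the algebraic group `G` with `σ^M = 1`.  Assume that `4` does not divide `M`, or that
all components in the spin groups of elements of the kernel of `π` are `1` or `-1`.  Then the field
`k(G)^{G^σ} = k(G/G^σ)` is purely transcendental over `k`. -/
theorem result {k : Type*} [Field k] [IsAlgClosed k] [CharZero k] {ι κ : Type*} [Fintype ι]
    [Fintype κ] [DecidableEq ι] [DecidableEq κ] {n : ι → ℕ}
    {J : ∀ i, Matrix (Fin (n i)) (Fin (n i)) k} (hJ : ∀ i, IsClassical (J i)) {m : κ → ℕ}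
    (hm : ∀ j, 7 ≤ m j ∧ m j ≠ 8) {G : Type*} [Group G] (π : Cov J m →* G)
    (hπ : Function.Surjective π) (hker : π.ker ≤ Subgroup.center (Cov J m))
    (σ : G ≃* G) (hreg : ∀ f ∈ Reg π, f ∘ σ ∈ Reg π) (M : ℕ) (hM : 0 < M)
    (hfin : ∀ x, σ^[M] x = x) (hspin : ¬ 4 ∣ M ∨ ∀ z ∈ π.ker, ∀ j, IsSign (z.2 j)) :
    RationalQuotient (Reg π) (fixSub σ) := by
  have hgen : {e : Cov J m → k | (∃ i a b, ∀ g, e g = mat (g.1 i) a b) ∨
      ∃ j, ∃ φ ∈ linFun (Qf (m j) k), ∀ g, e g = φ (g.2 j)}
      = Pool.Agent.Helper97.SPN.regGen J m := by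
    ext e
    constructor
    · rintro (⟨i, a, b, h⟩ | ⟨j, f, ⟨φ, hφ⟩, h⟩)
      · exact Or.inl ⟨i, a, b, funext h⟩
      · exact Or.inr ⟨j, φ, funext fun g => (h g).trans (hφ _)⟩
    · rintro (⟨i, a, b, h⟩ | ⟨j, φ, h⟩)
      · exact Or.inl ⟨i, a, b, fun g => congrFun h g⟩
      · exact Or.inr ⟨j, fun x => φ x, ⟨φ, fun _ => rfl⟩, fun g => congrFun h g⟩
  have hset : Reg (π : Cov J m → G) =
      {f : G → k | f ∘ π ∈ Algebra.adjoin k (Pool.Agent.Helper97.SPN.regGen J m)} := by
    rw [← hgen]
    rfl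
  rw [hset]
  refine Pool.Agent.Helper97.SPN.spin_final hJ hm π hπ hker σ (fun f hf => ?_) M hM hfin hspin
  have h1 : f ∈ Reg (π : Cov J m → G) := by rw [hset]; exact hf
  have h2 := hreg f h1
  rw [hset] at h2
  exact h2

end Pool.Agent.Results.MP_005e41_ag.SpinGroups
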