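import Pool.Agent.Helper97.SPN.Typ

/-!
# MP_005e41_ag: `G / G^σ` is rational for the classical types and standard automorphisms

`k` is an algebraically closed field of characteristic `0` and `G` is the quotient of a finite
product of groups `SL_n(k)`, `Sp_n(k)`, `SO_n(k)` (`n ≥ 3`) and `Spin_m(k)` (`m ≥ 3`) by any subgroup
of its centre (the quotient map is `π`).  The automorphism `σ` is any automorphism of finite order
`M` of `G` which permutes the factors by standard isomorphisms: `g ↦ a g a⁻¹` or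
`g ↦ a (g⁻¹)ᵀ a⁻¹` for matrices, and the isomorphisms of spin groups given by isometries of the
quadratic spaces.  If `4` divides `M`, the components in the spin groups of the elements of the
kernel of `π` are assumed to be `1` or `-1`.
-/

set_option autoImplicit false

namespace Pool.Agent.Results.MP_005e41_ag.SpinTypes

open Pool.Agent.Helper14.RG Pool.Agent.Helper97.CG Matrix

/-- The matrix `J` defines a classical group `{x ∈ SL_n(k) : xᵀ J x = J}`: `SL_n(k)` for `J = 0`,
`Sp_n(k)` for a nondegenerate alternating form, `SO_n(k)`, `n ≥ 3`, for a nondegenerate symmetric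
form. -/
def IsClassical {k : Type*} [Field k] {n : ℕ} (J : Matrix (Fin n) (Fin n) k) : Prop :=
  J = 0 ∨ (Jᵀ = -J ∧ J.det ≠ 0) ∨ (Jᵀ = J ∧ J.det ≠ 0 ∧ 3 ≤ n)

/-- The classical group `{x ∈ SL_n(k) : xᵀ J x = J}`. -/
abbrev Cl {k : Type*} [Field k] {n : ℕ} (J : Matrix (Fin n) (Fin n) k) : Type _ := IsoG J

/-- The matrix of an element. -/
abbrev mat {k : Type*} [Field k] {n : ℕ} {J : Matrix (Fin n) (Fin n) k} (g : Cl J) :
    Matrix (Fin n) (Fin n) k := ((g : Matrix.SpecialLinearGroup (Fin n) k) : Matrix _ _ k)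

/-- The map `f` is a standard isomorphism of classical groups: an isomorphism of the form
`g ↦ a g a⁻¹` or `g ↦ a (g⁻¹)ᵀ a⁻¹` for an invertible matrix `a` (with inverse `b`). -/
def IsStandard {k : Type*} [Field k] {m n : ℕ} {J : Matrix (Fin m) (Fin m) k}
    {J' : Matrix (Fin n) (Fin n) k} (f : Cl J → Cl J') : Prop :=
  (∃ τ : Cl J ≃* Cl J', ∀ g, τ g = f g) ∧
  ∃ (a : Matrix (Fin n) (Fin m) k) (b : Matrix (Fin m) (Fin n) k), a * b = 1 ∧ b * a = 1 ∧
    ((∀ g, mat (f g) = a * mat g * b) ∨ (∀ g, mat (f g) = a * (mat g⁻¹)ᵀ * b))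

/-- The spin group of a quadratic form (Mathlib's spin group, a group of invertible elements of the
Clifford algebra). -/
abbrev SpinOf {k V : Type*} [Field k] [AddCommGroup V] [Module k V] (Q : QuadraticForm k V) :
    Type _ := spinGroup Q

/-- The map `f` is a standard isomorphism of spin groups: an isomorphism which is the restriction of
the isomorphism of the Clifford algebras given by an isometry of the quadratic spaces. -/
def IsStandardSpin {k V V' : Type*} [Field k] [AddCommGroup V] [Module k V] [AddCommGroup V']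
    [Module k V'] {Q : QuadraticForm k V} {Q' : QuadraticForm k V'} (f : SpinOf Q → SpinOf Q') :
    Prop :=
  (∃ τ : SpinOf Q ≃* SpinOf Q', ∀ h, τ h = f h) ∧
  ∃ e : Q.IsometryEquiv Q', ∀ h, (f h : CliffordAlgebra Q') = CliffordAlgebra.equivOfIsometry e h

/-- The element of a spin group is `1` or `-1`. -/
def IsSign {k V : Type*} [Field k] [AddCommGroup V] [Module k V] {Q : QuadraticForm k V}
    (h : SpinOf Q) : Prop := (h : CliffordAlgebra Q) = 1 ∨ (h : CliffordAlgebra Q) = -1

/-- The functions on a spin group which are restrictions of linear functionals of the Clifford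
algebra. -/
def linFun {k V : Type*} [Field k] [AddCommGroup V] [Module k V] (Q : QuadraticForm k V) :
    Set (SpinOf Q → k) := {f | ∃ φ : CliffordAlgebra Q →ₗ[k] k, ∀ h, f h = φ h}

/-- The quadratic form `∑ xᵢ²` on `k^m`. -/
abbrev Qf (m : ℕ) (k : Type*) [Field k] : QuadraticForm k (Fin m → k) :=
  QuadraticMap.weightedSumSquares k (fun _ : Fin m => (1 : k))

/-- The covering group `∏ Cl (J i) × ∏ Spin_{m j}(k)`. -/
def Cov {k : Type*} [Field k] {ι κ : Type*} {n : ι → ℕ} (J : ∀ i, Matrix (Fin (n i)) (Fin (n i)) k)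
    (m : κ → ℕ) : Type _ := (∀ i, Cl (J i)) × (∀ j, SpinOf (Qf (m j) k))

instance {k : Type*} [Field k] {ι κ : Type*} {n : ι → ℕ} (J : ∀ i, Matrix (Fin (n i)) (Fin (n i)) k)
    (m : κ → ℕ) : Group (Cov J m) :=
  Prod.instGroup (G := ∀ i, Cl (J i)) (H := ∀ j, SpinOf (Qf (m j) k))

/-- The regular functions on the quotient group `G` of `Cov J m = ∏ Cl (J i) × ∏ Spin_{m j}(k)`, with
quotient map `π`: the functions whose pullback is a polynomial in the matrix entries of the
components in the groups `Cl (J i)` and the values of linear functionals of the Clifford algebras on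
the components in the spin groups. -/
def Reg {k : Type*} [Field k] {ι κ : Type*} {n : ι → ℕ}
    {J : ∀ i, Matrix (Fin (n i)) (Fin (n i)) k} {m : κ → ℕ} {G : Type*} (π : Cov J m → G) :
    Set (G → k) :=
  {f | f ∘ π ∈ Algebra.adjoin k {e : Cov J m → k | (∃ i a b, ∀ g, e g = mat (g.1 i) a b) ∨
    ∃ j, ∃ φ ∈ linFun (Qf (m j) k), ∀ g, e g = φ (g.2 j)}}

/-- The map `σ` of the quotient of `Cov J m` with quotient map `π` permutes the factors by standard
isomorphisms: `σ (π (g, h)) = π ((τ_i (g_{p i}))_i, (τ'_j (h_{q j}))_j)`. -/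
def PermutesFactors {k : Type*} [Field k] {ι κ : Type*} {n : ι → ℕ}
    {J : ∀ i, Matrix (Fin (n i)) (Fin (n i)) k} {m : κ → ℕ} {G : Type*} (π : Cov J m → G)
    (σ : G → G) : Prop :=
  ∃ (p : Equiv.Perm ι) (q : Equiv.Perm κ) (τ : ∀ i, Cl (J (p i)) → Cl (J i))
    (τ' : ∀ j, SpinOf (Qf (m (q j)) k) → SpinOf (Qf (m j) k)),
    (∀ i, IsStandard (τ i)) ∧ (∀ j, IsStandardSpin (τ' j)) ∧
    ∀ g, σ (π g) = π (fun i => τ i (g.1 (p i)), fun j => τ' j (g.2 (q j)))

/-- Let `G` be the quotient of the finite product of the classical groups `Cl (J i)` and the spin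
groups `Spin_{m j}(k)` by a subgroup of the centre, with quotient map `π`, and let `σ` be an
automorphism of `G` with `σ^M = 1` which permutes the factors by standard isomorphisms.  Assume that
`4` does not divide `M`, or that all components in the spin groups of elements of the kernel of `π`
are `1` or `-1`.  Then the field `k(G)^{G^σ} = k(G/G^σ)` is purely transcendental over `k`. -/
theorem result {k : Type*} [Field k] [IsAlgClosed k] [CharZero k] {ι κ : Type*} [Fintype ι]
    [Fintype κ] [DecidableEq ι] [DecidableEq κ] {n : ι → ℕ}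
    {J : ∀ i, Matrix (Fin (n i)) (Fin (n i)) k} (hJ : ∀ i, IsClassical (J i)) {m : κ → ℕ}
    (hm : ∀ j, 3 ≤ m j) {G : Type*} [Group G] (π : Cov J m →* G) (hπ : Function.Surjective π)
    (hker : π.ker ≤ Subgroup.center (Cov J m)) (σ : G ≃* G) (hσ : PermutesFactors π σ) (M : ℕ)
    (hM : 0 < M) (hfin : ∀ x, σ^[M] x = x) (hspin : ¬ 4 ∣ M ∨ ∀ z ∈ π.ker, ∀ j, IsSign (z.2 j)) :
    RationalQuotient (Reg π) (fixSub σ) := by
  obtain ⟨p, q, f, f', hf, hf', hσ⟩ := hσ
  choose τ hτf using fun i => (hf i).1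
  choose τ' hτf' using fun j => (hf' j).1
  obtain rfl : (fun i => (τ i : Cl (J (p i)) → Cl (J i))) = f :=
    funext fun i => funext fun g => hτf i g
  obtain rfl : (fun j => (τ' j : SpinOf (Qf (m (q j)) k) → SpinOf (Qf (m j) k))) = f' :=
    funext fun j => funext fun g => hτf' j g
  have hτ : ∀ i, ∃ (a : Matrix (Fin (n i)) (Fin (n (p i))) k)
      (b : Matrix (Fin (n (p i))) (Fin (n i)) k), a * b = 1 ∧ b * a = 1 ∧
      ((∀ g, mat (τ i g) = a * mat g * b) ∨ (∀ g, mat (τ i g) = a * (mat g⁻¹)ᵀ * b)) :=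
    fun i => (hf i).2
  have hτ' : ∀ j, ∃ e : (Qf (m (q j)) k).IsometryEquiv (Qf (m j) k),
      ∀ h, (τ' j h : CliffordAlgebra (Qf (m j) k)) = CliffordAlgebra.equivOfIsometry e h :=
    fun j => (hf' j).2
  have hstd : ∀ i, IsStdIso (τ i) := by
    intro i
    obtain ⟨a, b, hab, hba, h | h⟩ := hτ i
    · refine ⟨false, a, b, hab, hba, fun g => ?_⟩
      rw [stdRel_false]
      have h1 : isoHom (J i) (τ i g) = a * isoHom (J (p i)) g * b := h g
      rw [h1, Matrix.mul_assoc, hba, Matrix.mul_one]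
    · refine ⟨true, a, b, hab, hba, fun g => ?_⟩
      rw [stdRel_true]
      have h1 : isoHom (J i) (τ i g) = a * (isoHom (J (p i)) g⁻¹)ᵀ * b := h g
      have h2 : (isoHom (J (p i)) g⁻¹)ᵀ * (isoHom (J (p i)) g)ᵀ = 1 := by
        rw [← transpose_mul, ← map_mul, mul_inv_cancel, map_one, transpose_one]
      calc isoHom (J i) (τ i g) * a * (isoHom (J (p i)) g)ᵀ
          = a * (isoHom (J (p i)) g⁻¹)ᵀ * (b * a) * (isoHom (J (p i)) g)ᵀ := by
            rw [h1]; simp only [Matrix.mul_assoc]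
        _ = a * ((isoHom (J (p i)) g⁻¹)ᵀ * (isoHom (J (p i)) g)ᵀ) := by
            rw [hba, Matrix.mul_one, Matrix.mul_assoc]
        _ = a := by rw [h2, Matrix.mul_one]
  have hspinstd : ∀ j, Pool.Agent.Helper97.SPN.SpinStd (τ' j) := by
    intro j
    obtain ⟨e, he⟩ := hτ' j
    refine ⟨CliffordAlgebra.equivOfIsometry e, fun v => ⟨e v, ?_⟩, fun w => ⟨e.symm w, ?_⟩, he⟩
    · exact CliffordAlgebra.map_apply_ι e.toIsometry v
    · refine (CliffordAlgebra.map_apply_ι e.toIsometry (e.symm w)).trans ?_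
      exact congrArg _ (e.toLinearEquiv.apply_symm_apply w)
  have hgen : {e : Cov J m → k | (∃ i a b, ∀ g, e g = mat (g.1 i) a b) ∨
      ∃ j, ∃ φ ∈ linFun (Qf (m j) k), ∀ g, e g = φ (g.2 j)}
      = Pool.Agent.Helper97.SPN.regGen J m := by
    ext e
    constructor
    · rintro (⟨i, a, b, h⟩ | ⟨j, f, ⟨φ, hφ⟩, h⟩)
      · exact Or.inl ⟨i, a, b, funext h⟩
      · exact Or.inr ⟨j, φ, funext fun g => (h g).trans (hφ _)⟩
    · rintro (⟨i, a, b, h⟩ | ⟨j, φ, h⟩)
      · exact Or.inl ⟨i, a, b, fun g => congrFun h g⟩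
      · exact Or.inr ⟨j, fun x => φ x, ⟨φ, fun _ => rfl⟩, fun g => congrFun h g⟩
  have hset : Reg (π : Cov J m → G) =
      {f : G → k | f ∘ π ∈ Algebra.adjoin k (Pool.Agent.Helper97.SPN.regGen J m)} := by
    rw [← hgen]
    rfl
  rw [hset]
  exact Pool.Agent.Helper97.SPN.spin_types hJ hm π hπ hker σ p q τ τ' hstd hspinstd
    (fun g h => hσ (g, h)) M hM hfin hspin

end Pool.Agent.Results.MP_005e41_ag.SpinTypes
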